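import Mathlib

/-!
# The number of cycles of the elated function is unbounded

In base `b = 2 ^ m` the elated function maps `2 ^ e` to `2 ^ (3 (e mod m))`.  For `m = 3 ^ k - 1`
multiplication by `3` is a permutation of the residues modulo `m` of order `k`, so the `m` numbers
`2 ^ (3 r)`, `0 ≤ r < m`, lie on cycles of length at most `k`, and there are at least
`(3 ^ k - 1) / k` cycles.
-/

set_option autoImplicit false

namespace Pool.Agent.Results.MP_096971_nt.UnboundedCycles

/-- The base-`b` elated function: the leading digit times the sum of the squares of the digits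
(`Nat.digits b a` lists the base-`b` digits of `a`, the leading digit is the last entry). -/
def elated (b a : ℕ) : ℕ :=
  (Nat.digits b a).getLastD 0 * ((Nat.digits b a).map (fun d => d ^ 2)).sum

/-- `S` is a cycle of `elated b`: `S = {x 0, …, x (k - 1)}` for `k ≥ 1` distinct positive integers
with `x 0 ↦ x 1 ↦ … ↦ x (k - 1) ↦ x 0`. -/
def IsCycle (b : ℕ) (S : Finset ℕ) : Prop :=
  ∃ (k : ℕ) (x : ℕ → ℕ), 1 ≤ k ∧ (∀ i < k, ∀ j < k, x i = x j → i = j) ∧ (∀ j < k, 0 < x j) ∧
    (∀ j, j + 1 < k → elated b (x j) = x (j + 1)) ∧ elated b (x (k - 1)) = x 0 ∧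
    S = (Finset.range k).image x

/-- The number `C(b)` of distinct cycles of `elated b`. -/
noncomputable def numCycles (b : ℕ) : ℕ∞ := {S : Finset ℕ | IsCycle b S}.encard

lemma elated_pow {b d j : ℕ} (hb : 1 < b) (hd : 0 < d) (hdb : d < b) :
    elated b (b ^ j * d) = d ^ 3 := by
  unfold elated
  rw [Nat.digits_base_pow_mul hb hd, Nat.digits_of_lt b d hd.ne' hdb]
  simp only [List.map_append, List.sum_append, List.map_replicate, List.sum_replicate,
    List.map_cons, List.map_nil, List.sum_cons, List.sum_nil]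
  rw [List.getLastD_eq_getLast?]
  simp
  ring

lemma elated_two_pow {m e : ℕ} (hm : 0 < m) :
    elated (2 ^ m) (2 ^ e) = 2 ^ (3 * (e % m)) := by
  have h1 : (2 : ℕ) ^ e = (2 ^ m) ^ (e / m) * 2 ^ (e % m) := by
    rw [← pow_mul, ← pow_add, Nat.div_add_mod]
  rw [h1, elated_pow (Nat.one_lt_two_pow hm.ne') (by positivity)
    (Nat.pow_lt_pow_right (by norm_num) (Nat.mod_lt _ hm)), ← pow_mul]
  congr 1
  ring

/-- iterates on the powers of two -/
lemma iterate_two_pow {m : ℕ} (hm : 0 < m) (r : ℕ) (j : ℕ) :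
    (elated (2 ^ m))^[j] (2 ^ (3 * (r % m))) = 2 ^ (3 * ((3 ^ j * r) % m)) := by
  induction j with
  | zero => simp
  | succ j ih =>
    rw [Function.iterate_succ_apply', ih, elated_two_pow hm]
    congr 2
    rw [Nat.mul_mod_mod, ← mul_assoc, pow_succ']

lemma pow_three_mod (k : ℕ) (r : ℕ) : (3 ^ k * r) % (3 ^ k - 1) = r % (3 ^ k - 1) := by
  have h : 3 ^ k * r = r + (3 ^ k - 1) * r := by
    have : 1 ≤ 3 ^ k := Nat.one_le_pow _ _ (by norm_num)
    obtain ⟨t, ht⟩ := Nat.exists_eq_add_of_le this
    rw [ht]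
    simp
    ring
  rw [h, Nat.add_mul_mod_self_left]

/-- the orbit of a periodic point is a cycle -/
lemma isCycle_orbit {b x k : ℕ} (hk : 1 ≤ k) (hper : (elated b)^[k] x = x)
    (hpos : ∀ j, 0 < (elated b)^[j] x) :
    IsCycle b ((Finset.range (Function.minimalPeriod (elated b) x)).image
      (fun j => (elated b)^[j] x)) := by
  have hP : Function.IsPeriodicPt (elated b) k x := hper
  have hmp : 0 < Function.minimalPeriod (elated b) x := hP.minimalPeriod_pos hk
  refine ⟨Function.minimalPeriod (elated b) x, fun j => (elated b)^[j] x, hmp, ?_,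
    fun j _ => hpos j, ?_, ?_, rfl⟩
  · intro i hi j hj hij
    exact Function.iterate_injOn_Iio_minimalPeriod hi hj hij
  · intro j _
    exact (Function.iterate_succ_apply' _ _ _).symm
  · have h1 : elated b ((elated b)^[Function.minimalPeriod (elated b) x - 1] x) =
        (elated b)^[Function.minimalPeriod (elated b) x] x := by
      conv_rhs => rw [show Function.minimalPeriod (elated b) x =
        (Function.minimalPeriod (elated b) x - 1) + 1 by omega]
      rw [Function.iterate_succ_apply']
    simp only [Function.iterate_zero, id]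
    rw [h1]
    exact Function.iterate_minimalPeriod

lemma bound {k : ℕ} (hk : 1 ≤ k) :
    ((3 ^ k - 1 : ℕ) : ℕ∞) ≤ k * numCycles (2 ^ (3 ^ k - 1)) := by
  classical
  have hm : 0 < 3 ^ k - 1 := by
    have : 3 ^ 1 ≤ 3 ^ k := Nat.pow_le_pow_right (by norm_num) hk
    omega
  set m := 3 ^ k - 1 with hmdef
  set b := 2 ^ m with hb
  have hper : ∀ r, (elated b)^[k] (2 ^ (3 * (r % m))) = 2 ^ (3 * (r % m)) := by
    intro r
    rw [hb, iterate_two_pow hm, pow_three_mod k]
  have hpos : ∀ r j, 0 < (elated b)^[j] (2 ^ (3 * (r % m))) := by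
    intro r j
    rw [hb, iterate_two_pow hm]
    positivity
  -- the cycle of `2 ^ (3 r)`
  set S : ℕ → Finset ℕ := fun r =>
    (Finset.range (Function.minimalPeriod (elated b) (2 ^ (3 * (r % m))))).image
      (fun j => (elated b)^[j] (2 ^ (3 * (r % m)))) with hS
  have hcyc : ∀ r, IsCycle b (S r) := fun r => isCycle_orbit hk (hper r) (hpos r)
  have hcard : ∀ r, (S r).card ≤ k := by
    intro r
    refine Finset.card_image_le.trans ?_
    rw [Finset.card_range]
    have hP : Function.IsPeriodicPt (elated b) k (2 ^ (3 * (r % m))) := hper r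
    exact hP.minimalPeriod_le hk
  have hmem : ∀ r, 2 ^ (3 * (r % m)) ∈ S r := by
    intro r
    rw [hS, Finset.mem_image]
    have hP : Function.IsPeriodicPt (elated b) k (2 ^ (3 * (r % m))) := hper r
    exact ⟨0, Finset.mem_range.2 (hP.minimalPeriod_pos hk), rfl⟩
  -- the finite set of these cycles
  set T : Finset (Finset ℕ) := (Finset.range m).image S with hT
  have hTsub : (T : Set (Finset ℕ)) ⊆ {S : Finset ℕ | IsCycle b S} := by
    intro U hU
    rw [Finset.mem_coe, hT, Finset.mem_image] at hU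
    obtain ⟨r, _, rfl⟩ := hU
    exact hcyc r
  have h1 : m ≤ k * T.card := by
    have h2 : (Finset.range m).image (fun r => 2 ^ (3 * r)) ⊆ T.biUnion id := by
      intro y hy
      rw [Finset.mem_image] at hy
      obtain ⟨r, hr, rfl⟩ := hy
      rw [Finset.mem_biUnion]
      refine ⟨S r, Finset.mem_image_of_mem _ hr, ?_⟩
      have h3 := hmem r
      rw [Nat.mod_eq_of_lt (Finset.mem_range.1 hr)] at h3
      exact h3
    have h4 : ((Finset.range m).image (fun r => 2 ^ (3 * r))).card = m := by
      rw [Finset.card_image_of_injective, Finset.card_range]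
      intro x y hxy
      have := Nat.pow_right_injective (le_refl 2) hxy
      omega
    calc m = ((Finset.range m).image (fun r => 2 ^ (3 * r))).card := h4.symm
      _ ≤ (T.biUnion id).card := Finset.card_le_card h2
      _ ≤ ∑ U ∈ T, U.card := Finset.card_biUnion_le
      _ ≤ ∑ _U ∈ T, k := by
          refine Finset.sum_le_sum fun U hU => ?_
          rw [hT, Finset.mem_image] at hU
          obtain ⟨r, _, rfl⟩ := hU
          exact hcard r
      _ = k * T.card := by rw [Finset.sum_const, smul_eq_mul, mul_comm]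
  have h5 : (T.card : ℕ∞) ≤ numCycles b := by
    unfold numCycles
    rw [← Set.encard_coe_eq_coe_finsetCard]
    exact Set.encard_le_encard hTsub
  calc ((m : ℕ) : ℕ∞) ≤ ((k * T.card : ℕ) : ℕ∞) := by exact_mod_cast h1
    _ = k * (T.card : ℕ∞) := by push_cast; rfl
    _ ≤ k * numCycles b := by gcongr

/-- **Theorem.** For every `k ≥ 1` the elated function in base `b = 2 ^ (3 ^ k - 1)` has at least
`(3 ^ k - 1) / k` cycles; in particular the number `C(b)` of its cycles is unbounded as `b`
increases. -/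
theorem result :
    (∀ k : ℕ, 1 ≤ k → ((3 ^ k - 1 : ℕ) : ℕ∞) ≤ k * numCycles (2 ^ (3 ^ k - 1))) ∧
    ∀ M : ℕ, ∃ b : ℕ, 2 ≤ b ∧ (M : ℕ∞) < numCycles b := by
  refine ⟨fun k hk => bound hk, fun M => ?_⟩
  have hk : 1 ≤ M + 1 := by omega
  have hm : 0 < 3 ^ (M + 1) - 1 := by
    have : 3 ^ 1 ≤ 3 ^ (M + 1) := Nat.pow_le_pow_right (by norm_num) hk
    omega
  refine ⟨2 ^ (3 ^ (M + 1) - 1), ?_, ?_⟩
  · calc 2 = 2 ^ 1 := by norm_num
      _ ≤ 2 ^ (3 ^ (M + 1) - 1) := Nat.pow_le_pow_right (by norm_num) hm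
  · have h1 := bound hk
    by_contra hcon
    rw [not_lt] at hcon
    have h2 : ((3 ^ (M + 1) - 1 : ℕ) : ℕ∞) ≤ (((M + 1) * M : ℕ) : ℕ∞) := by
      refine h1.trans ?_
      push_cast
      gcongr
    have h3 : 3 ^ (M + 1) - 1 ≤ (M + 1) * M := by exact_mod_cast h2
    have h4 : ∀ n : ℕ, (n + 1) * n + 2 ≤ 3 ^ (n + 1) := by
      intro n
      induction n with
      | zero => norm_num
      | succ n ih => rw [pow_succ]; nlinarith
    have := h4 M
    omega

end Pool.Agent.Results.MP_096971_nt.UnboundedCycles
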